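import Mathlib

/-!
# Deterministic partially blind counter machines are strictly weaker, for every bound on reversals

The language `a^n b^m`, `m ≥ n`, is accepted by a deterministic real-time machine with one counter
making one reversal, and by no deterministic quasi-realtime partially blind machine, whatever the
number of its counters, with any bound on the number of reversals.
-/

namespace Pool.Agent.Results.MP_24384b_lc.BlindStrictlyWeaker

open List

/-- A one-way multicounter machine with `k` counters over the alphabet `α`.  `δ q s p q' adv v`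
means: in state `q`, scanning the symbol `s` (`none`: the head stands behind the last letter), with
the counters `i` such that `p i = true` positive and all others zero, the machine may go to state
`q'`, move the head one cell to the right iff `adv = true`, and change counter `i` by
`v i ∈ {-1, 0, 1}`. -/
structure Machine (α : Type) where
  k : ℕ
  Q : Type
  finQ : Finite Q
  start : Q
  final : Set Q
  δ : Q → Option α → (Fin k → Bool) → Q → Bool → (Fin k → SignType) → Prop

variable {α : Type}

/-- A configuration: state, part of the input from the scanned cell on, counters. -/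
@[ext] structure Config (M : Machine α) where
  state : M.Q
  rest : List α
  cnt : Fin M.k → ℕ

/-- One move, with the vector `v` of changes of the counters. A move that would make a counter
negative is impossible, and so is a move of the head beyond the end of the input. -/
def Move (M : Machine α) (C : Config M) (v : Fin M.k → SignType) (D : Config M) : Prop :=
  ∃ adv : Bool, M.δ C.state C.rest.head? (fun i => decide (0 < C.cnt i)) D.state adv v ∧
    (∀ i, (D.cnt i : ℤ) = (C.cnt i : ℤ) + ((v i : SignType) : ℤ)) ∧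
    (if adv then ∃ a, C.rest = a :: D.rest else D.rest = C.rest)

/-- Computations, with the list of their vectors of changes. -/
inductive Run (M : Machine α) : Config M → List (Fin M.k → SignType) → Config M → Prop
  | nil (C : Config M) : Run M C [] C
  | cons {C D E : Config M} {v : Fin M.k → SignType} {l : List (Fin M.k → SignType)} :
      Move M C v D → Run M D l E → Run M C (v :: l) E

/-- The initial configuration on input `w`. -/
def init (M : Machine α) (w : List α) : Config M := ⟨M.start, w, 0⟩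

/-- In every configuration at most one move is possible. -/
def Deterministic (M : Machine α) : Prop :=
  ∀ C v₁ D₁ v₂ D₂, Move M C v₁ D₁ → Move M C v₂ D₂ → v₁ = v₂ ∧ D₁ = D₂

/-- Every stretch of a computation during which the head stays on the same cell has length at most
`d`, for some constant `d`. -/
def QuasiRealtime (M : Machine α) : Prop :=
  ∃ d : ℕ, ∀ w l₁ C₁ l₂ C₂, Run M (init M w) l₁ C₁ → Run M C₁ l₂ C₂ → C₂.rest = C₁.rest →
    l₂.length ≤ d

/-- The moves do not depend on which counters are positive. -/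
def Blind (M : Machine α) : Prop :=
  ∀ q s p p' q' adv v, M.δ q s p q' adv v → M.δ q s p' q' adv v

/-- Every move reads a letter (so the end of the input is never tested). -/
def Realtime (M : Machine α) : Prop :=
  ∀ q s p q' adv v, M.δ q s p q' adv v → adv = true ∧ s ≠ none

/-- The number of reversals of a computation: for each counter, the number of changes of direction
in the sequence of its nonzero changes (remove the zeros, remove repetitions, and count the
places between the remaining terms), summed over all counters. -/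
def reversals {k : ℕ} (l : List (Fin k → SignType)) : ℕ :=
  ∑ i, ((((l.map (fun v => v i)).filter (fun s => decide (s ≠ 0))).destutter
    (fun s t => s ≠ t)).length - 1)

/-- `L_{Rc}(M)`: the words with an accepting computation (it reads the whole input and ends in a
final state with all counters zero) with at most `c` reversals. -/
def LR (c : ℕ) (M : Machine α) : Set (List α) :=
  {w | ∃ l C, Run M (init M w) l C ∧ C.rest = [] ∧ C.state ∈ M.final ∧ C.cnt = 0 ∧
    reversals l ≤ c}

/-- `𝓛_{Rc}(QR-DCOUNTER)`, over the alphabet `α`. -/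
def QRDCounter (α : Type) (c : ℕ) : Set (Set (List α)) :=
  {L | ∃ M : Machine α, Deterministic M ∧ QuasiRealtime M ∧ L = LR c M}

/-- `𝓛_{Rc}(QR-DPBLIND)`, over the alphabet `α`. -/
def QRDPBlind (α : Type) (c : ℕ) : Set (Set (List α)) :=
  {L | ∃ M : Machine α, Deterministic M ∧ QuasiRealtime M ∧ Blind M ∧ L = LR c M}

/-! ### The blind side -/

section blind

variable {M : Machine α}

/-- `l` can be carried out from the counter values `x` and leads to `y`. -/
inductive Path {k : ℕ} : (Fin k → ℕ) → List (Fin k → SignType) → (Fin k → ℕ) → Prop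
  | nil (x) : Path x [] x
  | cons {x y z : Fin k → ℕ} {v : Fin k → SignType} {l : List (Fin k → SignType)} :
      (∀ i, (y i : ℤ) = (x i : ℤ) + ((v i : SignType) : ℤ)) → Path y l z → Path x (v :: l) z

/-- Sum of the changes. -/
def tot {k : ℕ} (l : List (Fin k → SignType)) (i : Fin k) : ℤ :=
  (l.map (fun v => ((v i : SignType) : ℤ))).sum

theorem tot_append {k : ℕ} (l l' : List (Fin k → SignType)) (i : Fin k) :
    tot (l ++ l') i = tot l i + tot l' i := by
  simp [tot]

theorem Path.tot {k : ℕ} {x y : Fin k → ℕ} {l : List (Fin k → SignType)} (h : Path x l y)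
    (i : Fin k) : (y i : ℤ) = x i + tot l i := by
  induction h with
  | nil x => simp [BlindStrictlyWeaker.tot]
  | cons h _ ih =>
    have := h i
    simp only [BlindStrictlyWeaker.tot, List.map_cons, List.sum_cons] at ih ⊢
    omega

theorem Path.split {k : ℕ} {x z : Fin k → ℕ} {l l' : List (Fin k → SignType)}
    (h : Path x (l ++ l') z) : ∃ y, Path x l y ∧ Path y l' z := by
  induction l generalizing x with
  | nil => exact ⟨x, .nil x, h⟩
  | cons v l ih =>
    cases h with
    | cons h1 h2 =>
      obtain ⟨y, hy, hy'⟩ := ih h2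
      exact ⟨y, .cons h1 hy, hy'⟩

theorem Path.append {k : ℕ} {x y z : Fin k → ℕ} {l l' : List (Fin k → SignType)}
    (h : Path x l y) (h' : Path y l' z) : Path x (l ++ l') z := by
  induction h with
  | nil x => exact h'
  | cons h _ ih => exact .cons h (ih h')

theorem Run.append {C D E : Config M} {l l' : List (Fin M.k → SignType)}
    (h : Run M C l D) (h' : Run M D l' E) : Run M C (l ++ l') E := by
  induction h with
  | nil x => exact h'
  | cons h _ ih => exact .cons h (ih h')

/-- Transitions of a blind machine, without its counters. -/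
def Tr (M : Machine α) (q : M.Q) (a : α) (q' : M.Q) (adv : Bool) (v : Fin M.k → SignType) : Prop :=
  M.δ q (some a) (fun _ => true) q' adv v

/-- Reading of one letter. -/
inductive Mac (M : Machine α) (a : α) : M.Q → List (Fin M.k → SignType) → M.Q → Prop
  | last {q q' v} : Tr M q a q' true v → Mac M a q [v] q'
  | stay {q q₁ q' v l} : Tr M q a q₁ false v → Mac M a q₁ l q' → Mac M a q (v :: l) q'

/-- Reading of a word. -/
inductive MacW (M : Machine α) : M.Q → List α → List (Fin M.k → SignType) → M.Q → Prop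
  | nil (q) : MacW M q [] [] q
  | cons {q q₁ q' a u l l'} : Mac M a q l q₁ → MacW M q₁ u l' q' → MacW M q (a :: u) (l ++ l') q'

theorem Tr.unique (hd : Deterministic M) (hb : Blind M) {q q₁ q₂ : M.Q} {a : α} {b₁ b₂ : Bool}
    {v₁ v₂ : Fin M.k → SignType} (h₁ : Tr M q a q₁ b₁ v₁) (h₂ : Tr M q a q₂ b₂ v₂) :
    q₁ = q₂ ∧ b₁ = b₂ ∧ v₁ = v₂ := by
  have key : ∀ (q' : M.Q) (b : Bool) (v : Fin M.k → SignType), Tr M q a q' b v →
      Move M ⟨q, [a], fun _ => 1⟩ v
        ⟨q', if b then [] else [a], fun i => (1 + ((v i : SignType) : ℤ)).toNat⟩ := by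
    intro q' b v h
    refine ⟨b, hb _ _ _ _ _ _ _ h, fun i => ?_, ?_⟩
    · have : (-1 : ℤ) ≤ ((v i : SignType) : ℤ) := by
        rcases v i with _ | _ | _ <;> decide
      simp only [Nat.cast_one]
      omega
    · cases b <;> simp
  obtain ⟨h3, h4⟩ := hd _ _ _ _ _ (key _ _ _ h₁) (key _ _ _ h₂)
  have h5 := congrArg Config.state h4
  have h6 := congrArg Config.rest h4
  refine ⟨h5, ?_, h3⟩
  cases b₁ <;> cases b₂ <;> simp_all

theorem Mac.unique (hd : Deterministic M) (hb : Blind M) {q q₁ q₂ : M.Q} {a : α}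
    {l₁ l₂ : List (Fin M.k → SignType)} (h₁ : Mac M a q l₁ q₁) (h₂ : Mac M a q l₂ q₂) :
    l₁ = l₂ ∧ q₁ = q₂ := by
  induction h₁ generalizing l₂ with
  | last h =>
    cases h₂ with
    | last h' =>
      obtain ⟨e1, e2, e3⟩ := Tr.unique hd hb h h'
      simp [e1, e3]
    | stay h' _ =>
      obtain ⟨e1, e2, e3⟩ := Tr.unique hd hb h h'
      simp at e2
  | stay h _ ih =>
    cases h₂ with
    | last h' =>
      obtain ⟨e1, e2, e3⟩ := Tr.unique hd hb h h'
      simp at e2
    | stay h' h'' =>
      obtain ⟨e1, e2, e3⟩ := Tr.unique hd hb h h'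
      subst e1
      obtain ⟨e4, e5⟩ := ih h''
      simp [e3, e4, e5]

theorem MacW.unique (hd : Deterministic M) (hb : Blind M) {q q₁ q₂ : M.Q} {u : List α}
    {l₁ l₂ : List (Fin M.k → SignType)} (h₁ : MacW M q u l₁ q₁) (h₂ : MacW M q u l₂ q₂) :
    l₁ = l₂ ∧ q₁ = q₂ := by
  induction h₁ generalizing l₂ with
  | nil q => cases h₂; simp
  | cons h _ ih =>
    cases h₂ with
    | cons h' h'' =>
      obtain ⟨e1, e2⟩ := Mac.unique hd hb h h'
      subst e2
      obtain ⟨e3, e4⟩ := ih h''
      simp [e1, e3, e4]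

theorem MacW.split {q q' : M.Q} {u w : List α} {l : List (Fin M.k → SignType)}
    (h : MacW M q (u ++ w) l q') :
    ∃ l₁ l₂ q₁, MacW M q u l₁ q₁ ∧ MacW M q₁ w l₂ q' ∧ l = l₁ ++ l₂ := by
  induction u generalizing q l with
  | nil => exact ⟨[], l, q, .nil q, h, rfl⟩
  | cons a u ih =>
    cases h with
    | cons h1 h2 =>
      obtain ⟨l₁, l₂, q₁, e1, e2, e3⟩ := ih h2
      exact ⟨_, l₂, q₁, .cons h1 e1, e2, by rw [e3, List.append_assoc]⟩

theorem MacW.append {q q₁ q' : M.Q} {u w : List α} {l₁ l₂ : List (Fin M.k → SignType)}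
    (h : MacW M q u l₁ q₁) (h' : MacW M q₁ w l₂ q') : MacW M q (u ++ w) (l₁ ++ l₂) q' := by
  induction h with
  | nil q => exact h'
  | cons h1 _ ih =>
    rw [List.append_assoc]
    exact .cons h1 (ih h')

/-- A run that reads the first letter of the input. -/
theorem Run.first (hb : Blind M) {C D : Config M} {l : List (Fin M.k → SignType)} {a : α}
    {w : List α} (h : Run M C l D) (hC : C.rest = a :: w) (hD : D.rest = []) :
    ∃ l₁ l₂ q' x', Mac M a C.state l₁ q' ∧ Path C.cnt l₁ x' ∧ l = l₁ ++ l₂ ∧
      Run M ⟨q', w, x'⟩ l₂ D := by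
  induction h with
  | nil C => rw [hD] at hC; simp at hC
  | @cons C C₁ E v l hm hr ih =>
    obtain ⟨adv, h1, h2, h3⟩ := hm
    have h1' : Tr M C.state a C₁.state adv v := by
      rw [hC] at h1
      exact hb _ _ _ _ _ _ _ h1
    cases adv with
    | true =>
      simp only [if_true] at h3
      obtain ⟨a', h3⟩ := h3
      rw [hC] at h3
      obtain ⟨-, h4⟩ := List.cons.inj h3
      refine ⟨[v], l, C₁.state, C₁.cnt, .last h1', .cons h2 (.nil _), rfl, ?_⟩
      rw [h4]
      exact hr
    | false =>
      simp only [Bool.false_eq_true, if_false] at h3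
      obtain ⟨l₁, l₂, q', x', e1, e2, e3, e4⟩ := ih (h3.trans hC) hD
      exact ⟨v :: l₁, l₂, q', x', .stay h1' e1, .cons h2 e2, by rw [e3]; rfl, e4⟩

/-- A run that reads the whole input. -/
theorem Run.read (hb : Blind M) {D : Config M} (w : List α) :
    ∀ {q : M.Q} {x : Fin M.k → ℕ} {l : List (Fin M.k → SignType)},
    Run M ⟨q, w, x⟩ l D → D.rest = [] →
    ∃ l₁ l₂ q' x', MacW M q w l₁ q' ∧ Path x l₁ x' ∧ l = l₁ ++ l₂ ∧ Run M ⟨q', [], x'⟩ l₂ D := by
  induction w with
  | nil =>
    intro q x l h hD
    exact ⟨[], l, q, x, .nil q, .nil x, rfl, h⟩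
  | cons a w ih =>
    intro q x l h hD
    obtain ⟨l₁, l₂, q', x', e1, e2, e3, e4⟩ := Run.first hb h rfl hD
    obtain ⟨l₃, l₄, q₂, x₂, f1, f2, f3, f4⟩ := ih e4 hD
    exact ⟨l₁ ++ l₃, l₄, q₂, x₂, .cons e1 f1, e2.append f2, by rw [e3, f3, List.append_assoc], f4⟩

theorem Run.ofMac (hb : Blind M) {a : α} {q q' : M.Q} {l : List (Fin M.k → SignType)}
    (h : Mac M a q l q') (w : List α) : ∀ {x x' : Fin M.k → ℕ}, Path x l x' →
    Run M ⟨q, a :: w, x⟩ l ⟨q', w, x'⟩ := by
  induction h with
  | @last q q' v h =>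
    intro x x' hp
    cases hp with
    | @cons _ y _ _ _ h1 h2 =>
      cases h2
      exact .cons (D := ⟨q', w, x'⟩) ⟨true, hb _ _ _ _ _ _ _ h, h1, by simp⟩ (.nil _)
  | @stay q q₁ q' v l h _ ih =>
    intro x x' hp
    cases hp with
    | @cons _ y _ _ _ h1 h2 =>
      exact .cons (D := ⟨q₁, a :: w, y⟩) ⟨false, hb _ _ _ _ _ _ _ h, h1, by simp⟩ (ih h2)

theorem Run.ofMacW (hb : Blind M) {q q' : M.Q} {u : List α} {l : List (Fin M.k → SignType)}
    (h : MacW M q u l q') : ∀ {x x' : Fin M.k → ℕ}, Path x l x' →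
    Run M ⟨q, u, x⟩ l ⟨q', [], x'⟩ := by
  induction h with
  | nil q =>
    intro x x' hp
    cases hp
    exact .nil _
  | cons h _ ih =>
    intro x x' hp
    obtain ⟨y, h1, h2⟩ := hp.split
    exact (Run.ofMac hb h _ h1).append (ih h2)

theorem Run.cnt_le {C D : Config M} {l : List (Fin M.k → SignType)} (h : Run M C l D)
    (i : Fin M.k) : C.cnt i ≤ D.cnt i + l.length := by
  induction h with
  | nil C => simp
  | @cons C D E v l hm _ ih =>
    obtain ⟨adv, -, h2, -⟩ := hm
    have h3 := h2 i
    have : (-1 : ℤ) ≤ ((v i : SignType) : ℤ) := by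
      rcases v i with _ | _ | _ <;> decide
    simp only [List.length_cons]
    omega

theorem destutter_mono {β : Type} [DecidableEq β] {l l' : List β} (h : l <+ l') :
    (l.destutter (fun s t => s ≠ t)).length ≤ (l'.destutter (fun s t => s ≠ t)).length :=
  List.IsChain.length_le_length_destutter_ne ((List.destutter_sublist _ l).trans h)
    (List.isChain_destutter _ l)

theorem reversals_mono {k : ℕ} {l l' : List (Fin k → SignType)} (h : l <+ l') :
    reversals l ≤ reversals l' := by
  unfold reversals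
  refine Finset.sum_le_sum fun i _ => Nat.sub_le_sub_right ?_ 1
  exact destutter_mono ((h.map _).filter _)

/-- The language. -/
def lang : Set (List Bool) :=
  {w | ∃ n m : ℕ, n ≤ m ∧ w = List.replicate n false ++ List.replicate m true}

theorem replicate_inj' {n m n' m' : ℕ}
    (h : List.replicate n false ++ List.replicate m true =
      List.replicate n' false ++ List.replicate m' true) : n = n' ∧ m = m' := by
  have h1 := congrArg (List.count false) h
  have h2 := congrArg (List.count true) h
  simp [List.count_replicate] at h1 h2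
  exact ⟨h1, h2⟩

theorem not_blind (c : ℕ) (M : Machine Bool) (hd : Deterministic M) (hq : QuasiRealtime M)
    (hb : Blind M) : LR c M ≠ lang := by
  intro hL
  obtain ⟨d, hq⟩ := hq
  have := M.finQ
  have := Fintype.ofFinite M.Q
  obtain ⟨n, hn⟩ : ∃ n : ℕ, n = Fintype.card M.Q + 1 := ⟨_, rfl⟩
  -- accepting runs
  have hacc : ∀ m, n ≤ m → ∃ l₁ l₂ q' x' D, MacW M M.start
      (List.replicate n false ++ List.replicate m true) l₁ q' ∧ Path 0 l₁ x' ∧
      Run M ⟨q', [], x'⟩ l₂ D ∧ D.rest = [] ∧ D.state ∈ M.final ∧ D.cnt = 0 ∧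
      reversals (l₁ ++ l₂) ≤ c ∧ ∀ i, x' i ≤ d := by
    intro m hm
    have : List.replicate n false ++ List.replicate m true ∈ LR c M := by
      rw [hL]; exact ⟨n, m, hm, rfl⟩
    obtain ⟨l, D, h1, h2, h3, h4, h5⟩ := this
    obtain ⟨l₁, l₂, q', x', e1, e2, e3, e4⟩ := Run.read hb _ h1 h2
    refine ⟨l₁, l₂, q', x', D, e1, e2, e4, h2, h3, h4, e3 ▸ h5, fun i => ?_⟩
    have h6 := hq _ _ _ _ _ (Run.ofMacW hb e1 e2) e4 h2
    have h7 := e4.cnt_le i
    rw [h4] at h7
    simp only [Pi.zero_apply] at h7
    omega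
  -- the states and changes after `a^n b^j`
  have hex : ∀ j, ∃ l q, MacW M M.start (List.replicate n false ++ List.replicate j true) l q := by
    intro j
    obtain ⟨l₁, -, q', -, -, h, -⟩ := hacc (n + j) (Nat.le_add_right _ _)
    rw [Nat.add_comm n j, List.replicate_add, ← List.append_assoc] at h
    obtain ⟨l, -, q, h, -, -⟩ := h.split
    exact ⟨l, q, h⟩
  choose L S hLS using hex
  have hstep : ∀ j, ∃ l, Mac M true (S j) l (S (j + 1)) ∧ L (j + 1) = L j ++ l := by
    intro j
    have h := hLS (j + 1)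
    rw [List.replicate_add, ← List.append_assoc] at h
    obtain ⟨l₁, l₂, q₁, h1, h2, h3⟩ := h.split
    obtain ⟨e1, e2⟩ := MacW.unique hd hb h1 (hLS j)
    subst e2
    cases h2 with
    | cons h4 h5 =>
      cases h5
      exact ⟨_, h4, by rw [h3, e1]; simp⟩
  have hsub : ∀ j t, L j <+ L (j + t) := by
    intro j t
    induction t with
    | zero => exact List.Sublist.refl _
    | succ t ih =>
      obtain ⟨l, -, h⟩ := hstep (j + t)
      rw [← Nat.add_assoc, h]
      exact ih.trans (List.sublist_append_left _ _)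
  have hpre : ∀ j t, ∃ l, L (j + t) = L j ++ l := by
    intro j t
    induction t with
    | zero => exact ⟨[], by simp⟩
    | succ t ih =>
      obtain ⟨l, -, h⟩ := hstep (j + t)
      obtain ⟨l', h'⟩ := ih
      exact ⟨l' ++ l, by rw [← Nat.add_assoc, h, h', List.append_assoc]⟩
  -- pigeonhole
  obtain ⟨i, j, hij, hS⟩ : ∃ i j : Fin n, i < j ∧ S i = S j := by
    have hcard : Fintype.card M.Q < Fintype.card (Fin n) := by simp [hn]
    obtain ⟨i, j, h1, h2⟩ := Fintype.exists_ne_map_eq_of_card_lt (fun i : Fin n => S i) hcard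
    rcases lt_or_gt_of_ne h1 with h | h
    · exact ⟨i, j, h, h2⟩
    · exact ⟨j, i, h, h2.symm⟩
  obtain ⟨p, hp⟩ : ∃ p : ℕ, (j : ℕ) = i + p := ⟨j - i, by have := Fin.lt_def.1 hij; omega⟩
  have hp0 : 0 < p := by have := Fin.lt_def.1 hij; omega
  have hjn : (j : ℕ) < n := j.2
  -- periodicity
  have hper : ∀ t, S (i + t + p) = S (i + t) ∧
      ∀ s, tot (L (i + t + p)) s = tot (L (i + t)) s + (tot (L (i + p)) s - tot (L i) s) := by
    intro t
    induction t with
    | zero => 
      refine ⟨?_, fun s => by simp⟩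
      rw [Nat.add_zero, ← hp]; exact hS.symm
    | succ t ih =>
      obtain ⟨ih1, ih2⟩ := ih
      obtain ⟨l, h1, h2⟩ := hstep (i + t)
      obtain ⟨l', h1', h2'⟩ := hstep (i + t + p)
      rw [ih1] at h1'
      obtain ⟨e1, e2⟩ := Mac.unique hd hb h1 h1'
      have e3 : (i : ℕ) + (t + 1) + p = i + t + p + 1 := by ring
      have e4 : (i : ℕ) + (t + 1) = i + t + 1 := by ring
      rw [e3, e4]
      refine ⟨e2.symm, fun s => ?_⟩
      rw [h2, h2', tot_append, tot_append, ih2 s, e1]
      ring
  have hmul : ∀ r s, tot (L (n + r * p)) s =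
      tot (L n) s + r * (tot (L (i + p)) s - tot (L i) s) := by
    intro r s
    induction r with
    | zero => simp
    | succ r ih =>
      obtain ⟨t, ht⟩ : ∃ t, n + r * p = i + t := ⟨n + r * p - i, by omega⟩
      have h := (hper t).2 s
      rw [← ht] at h
      rw [show n + (r + 1) * p = n + r * p + p by ring, h, ih]
      push_cast
      ring
  have hbd : ∀ m, n ≤ m → ∀ s, 0 ≤ tot (L m) s ∧ tot (L m) s ≤ d := by
    intro m hm s
    obtain ⟨l₁, l₂, q', x', D, h1, h2, -, -, -, -, -, h3⟩ := hacc m hm
    obtain ⟨e1, e2⟩ := MacW.unique hd hb h1 (hLS m)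
    have h4 := h2.tot s
    rw [← e1]
    have := h3 s
    simp only [Pi.zero_apply, Nat.cast_zero] at h4
    omega
  have hzero : ∀ s, tot (L (i + p)) s - tot (L i) s = 0 := by
    intro s
    have h1 := hbd n le_rfl s
    have h2 := hbd (n + (d + 1) * p) (Nat.le_add_right _ _) s
    rw [hmul] at h2
    push_cast at h2
    rcases lt_trichotomy (tot (L (i + p)) s - tot (L i) s) 0 with h | h | h
    · nlinarith
    · exact h
    · nlinarith
  -- the contradiction
  obtain ⟨l₁, l₂, q', x', D, h1, h2, h3, h4, h5, h6, h7, -⟩ := hacc n le_rfl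
  obtain ⟨e1, e2⟩ := MacW.unique hd hb h1 (hLS n)
  subst e1
  subst e2
  obtain ⟨t, ht⟩ : ∃ t, n = i + t + p := ⟨n - i - p, by omega⟩
  obtain ⟨g1, g2⟩ := hper t
  obtain ⟨l', hl'⟩ := hpre (i + t) p
  rw [← ht] at g1 g2 hl'
  rw [hl'] at h2
  obtain ⟨y, hy1, hy2⟩ := h2.split
  have hyx : y = x' := by
    funext s
    have k1 := hy1.tot s
    have k2 := (hy1.append hy2).tot s
    rw [← hl', g2 s, hzero s] at k2
    simp only [Pi.zero_apply, Nat.cast_zero] at k1 k2
    omega
  subst hyx
  have hrun := Run.ofMacW hb (hLS (i + t)) hy1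
  rw [← g1] at hrun
  have hmem : List.replicate n false ++ List.replicate (i + t) true ∈ LR c M := by
    refine ⟨L (i + t) ++ l₂, D, hrun.append h3, h4, h5, h6, le_trans (reversals_mono ?_) h7⟩
    have := hsub (i + t) p
    rw [← ht] at this
    exact this.append_right l₂
  rw [hL] at hmem
  obtain ⟨n', m', h8, h9⟩ := hmem
  obtain ⟨h10, h11⟩ := replicate_inj' h9
  omega

end blind

/-! ### The machine with zero tests -/

/-- One counter, two states: read the letters `a` (`false`) and count them; on each letter `b`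
(`true`) decrement the counter if it is positive. -/
def cm : Machine Bool where
  k := 1
  Q := Bool
  finQ := inferInstance
  start := false
  final := Set.univ
  δ := fun q s p q' adv v => adv = true ∧
    ((q = false ∧ s = some false ∧ q' = false ∧ v = fun _ => 1) ∨
      (s = some true ∧ q' = true ∧ v = fun _ => if p 0 then -1 else 0))

theorem cm_realtime : Realtime cm := by
  rintro q s p q' adv v ⟨h, ⟨-, h1, -⟩ | ⟨h1, -⟩⟩ <;> simp [h, h1]

/-- The two kinds of moves. -/
theorem cm_move {C D : Config cm} {v : Fin 1 → SignType} (h : Move cm C v D) :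
    (C.state = false ∧ D.state = false ∧ C.rest = false :: D.rest ∧ D.cnt (0 : Fin 1) = C.cnt (0 : Fin 1) + 1 ∧
      v = fun _ => 1) ∨
    (D.state = true ∧ C.rest = true :: D.rest ∧ D.cnt (0 : Fin 1) = C.cnt (0 : Fin 1) - 1 ∧
      v = fun _ => if 0 < C.cnt (0 : Fin 1) then -1 else 0) := by
  obtain ⟨adv, ⟨h0, h1⟩, h2, h3⟩ := h
  subst h0
  simp only [if_true] at h3
  obtain ⟨a, h3⟩ := h3
  have h4 := h2 (0 : Fin 1)
  rcases h1 with ⟨e1, e2, e3, e4⟩ | ⟨e2, e3, e4⟩
  · left
    rw [h3] at e2
    simp only [List.head?_cons, Option.some.injEq] at e2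
    subst e2
    subst e4
    refine ⟨e1, e3, h3, ?_, rfl⟩
    simp at h4
    omega
  · right
    rw [h3] at e2
    simp only [List.head?_cons, Option.some.injEq] at e2
    subst e2
    refine ⟨e3, h3, ?_, ?_⟩
    · rw [e4] at h4
      by_cases hx : 0 < C.cnt (0 : Fin 1)
      · simp [hx] at h4
        omega
      · simp [hx] at h4
        omega
    · rw [e4]; simp

theorem cm_cnt_ext {x y : Fin cm.k → ℕ} (h : x (0 : Fin 1) = y (0 : Fin 1)) : x = y := by
  funext i
  have : i = (0 : Fin 1) := Subsingleton.elim (α := Fin 1) _ _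
  rw [this, h]

theorem cm_det : Deterministic cm := by
  intro C v₁ D₁ v₂ D₂ h₁ h₂
  rcases cm_move h₁ with ⟨a1, a2, a3, a4, a5⟩ | ⟨a2, a3, a4, a5⟩ <;>
  rcases cm_move h₂ with ⟨b1, b2, b3, b4, b5⟩ | ⟨b2, b3, b4, b5⟩
  · refine ⟨a5.trans b5.symm, Config.ext (a2.trans b2.symm) ?_ (cm_cnt_ext (a4.trans b4.symm))⟩
    rw [a3] at b3
    exact (List.cons.inj b3).2
  · rw [a3] at b3
    simp at b3
  · rw [a3] at b3
    simp at b3
  · refine ⟨a5.trans b5.symm, Config.ext (a2.trans b2.symm) ?_ (cm_cnt_ext (a4.trans b4.symm))⟩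
    rw [a3] at b3
    exact (List.cons.inj b3).2

theorem cm_len {C D : Config cm} {l : List (Fin cm.k → SignType)} (h : Run cm C l D) :
    D.rest.length + l.length = C.rest.length := by
  induction h with
  | nil C => simp
  | cons hm _ ih =>
    rcases cm_move hm with ⟨-, -, a3, -⟩ | ⟨-, a3, -⟩ <;>
    · rw [a3]
      simp only [List.length_cons]
      omega

theorem cm_qr : QuasiRealtime cm := by
  refine ⟨0, fun w l₁ C₁ l₂ C₂ _ h he => ?_⟩
  have := cm_len h
  rw [he] at this
  omega

theorem cm_sound {C D : Config cm} {l : List (Fin cm.k → SignType)} (h : Run cm C l D)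
    (hr : D.rest = []) (hc : D.cnt = 0) :
    (C.state = true → ∃ m, C.rest = List.replicate m true ∧ C.cnt (0 : Fin 1) ≤ m) ∧
    (C.state = false → ∃ n m, C.rest = List.replicate n false ++ List.replicate m true ∧
      C.cnt (0 : Fin 1) + n ≤ m) := by
  induction h with
  | nil C =>
    have h0 : C.cnt (0 : Fin 1) = 0 := congrFun hc _
    refine ⟨fun _ => ⟨0, by simp [hr], by simp [h0]⟩, fun _ => ⟨0, 0, by simp [hr], by simp [h0]⟩⟩
  | @cons C C₁ E v l hm _ ih =>
    obtain ⟨ih1, ih2⟩ := ih hr hc
    rcases cm_move hm with ⟨a1, a2, a3, a4, a5⟩ | ⟨a2, a3, a4, a5⟩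
    · refine ⟨fun h => ?_, fun _ => ?_⟩
      · rw [a1] at h
        exact absurd h (by simp)
      · obtain ⟨n, m, h1, h2⟩ := ih2 a2
        refine ⟨n + 1, m, ?_, by omega⟩
        rw [a3, h1, List.replicate_succ, List.cons_append]
    · obtain ⟨m, h1, h2⟩ := ih1 a2
      have h3 : C.rest = List.replicate (m + 1) true := by rw [a3, h1, List.replicate_succ]
      refine ⟨fun _ => ⟨m + 1, h3, by omega⟩, fun _ => ⟨0, m + 1, by simpa using h3, by omega⟩⟩

/-- Changes while reading the letters `b`. -/
def bl : ℕ → ℕ → List (Fin 1 → SignType)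
  | _, 0 => []
  | x, m + 1 => (fun _ => if 0 < x then -1 else 0) :: bl (x - 1) m

theorem run_b (m : ℕ) : ∀ (q : Bool) (x : ℕ), ∃ q' : Bool,
    Run cm ⟨q, List.replicate m true, fun _ => x⟩ (bl x m) ⟨q', [], fun _ => x - m⟩ := by
  induction m with
  | zero =>
    intro q x
    exact ⟨q, .nil _⟩
  | succ m ih =>
    intro q x
    obtain ⟨q', h⟩ := ih true (x - 1)
    refine ⟨q', ?_⟩
    have e : x - (m + 1) = x - 1 - m := by omega
    rw [e]
    refine .cons (D := ⟨true, List.replicate m true, fun _ => x - 1⟩) ⟨true, ⟨rfl, Or.inr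
      ⟨by simp [List.replicate_succ], rfl, by simp⟩⟩, fun i => ?_, by simp [List.replicate_succ]⟩ h
    by_cases hx : 0 < x
    · simp [hx]
      omega
    · simp [hx]
      omega

theorem run_a (n : ℕ) (w : List Bool) : ∀ x : ℕ,
    Run cm ⟨false, List.replicate n false ++ w, fun _ => x⟩
      (List.replicate n (fun _ => 1)) ⟨false, w, fun _ => x + n⟩ := by
  induction n with
  | zero =>
    intro x
    exact .nil _
  | succ n ih =>
    intro x
    have h := ih (x + 1)
    have e : x + (n + 1) = x + 1 + n := by omega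
    rw [e]
    refine .cons (D := ⟨false, List.replicate n false ++ w, fun _ => x + 1⟩) ⟨true, ⟨rfl, Or.inl
      ⟨rfl, by simp [List.replicate_succ], rfl, rfl⟩⟩, fun i => by simp,
      by simp [List.replicate_succ]⟩ h

theorem bl_filter (m : ℕ) : ∀ x : ℕ, ∃ r : ℕ,
    ((bl x m).map (fun v => v 0)).filter (fun s => decide (s ≠ 0)) =
      List.replicate r (-1 : SignType) := by
  induction m with
  | zero => intro x; exact ⟨0, rfl⟩
  | succ m ih =>
    intro x
    obtain ⟨r, hr⟩ := ih (x - 1)
    by_cases hx : 0 < x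
    · refine ⟨r + 1, ?_⟩
      rw [bl, List.map_cons, List.filter_cons, hr]
      simp [hx, List.replicate_succ]
    · refine ⟨r, ?_⟩
      rw [bl, List.map_cons, List.filter_cons, hr]
      simp [hx]

theorem chain_replicate {β : Type} {r : ℕ} {a : β}
    (h : (List.replicate r a).IsChain (fun s t => s ≠ t)) : r ≤ 1 := by
  by_contra hr
  obtain ⟨k, rfl⟩ : ∃ k, r = k + 2 := ⟨r - 2, by omega⟩
  rw [List.replicate_succ, List.replicate_succ] at h
  simp at h

theorem reversals_run (n m : ℕ) :
    reversals (k := 1) (List.replicate n (fun _ => 1) ++ bl n m) ≤ 1 := by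
  unfold reversals
  rw [Fin.sum_univ_one]
  obtain ⟨r, hr⟩ := bl_filter m n
  rw [List.map_append, List.filter_append, hr]
  have e : ((List.replicate n (fun _ : Fin 1 => (1 : SignType))).map (fun v => v 0)).filter
      (fun s => decide (s ≠ 0)) = List.replicate n (1 : SignType) := by
    rw [List.map_replicate, List.filter_replicate]
    simp
  rw [e]
  have h1 := List.destutter_sublist (fun s t : SignType => s ≠ t)
    (List.replicate n (1 : SignType) ++ List.replicate r (-1))
  have h2 := List.isChain_destutter (fun s t : SignType => s ≠ t)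
    (List.replicate n (1 : SignType) ++ List.replicate r (-1))
  obtain ⟨l₁, l₂, h3, h4, h5⟩ := List.sublist_append_iff.1 h1
  rw [h3] at h2 ⊢
  obtain ⟨r₁, -, rfl⟩ := List.sublist_replicate_iff.1 h4
  obtain ⟨r₂, -, rfl⟩ := List.sublist_replicate_iff.1 h5
  have h6 := chain_replicate h2.left_of_append
  have h7 := chain_replicate h2.right_of_append
  simp only [List.length_append, List.length_replicate]
  omega

theorem cm_lang (c : ℕ) (hc : 1 ≤ c) : LR c cm = lang := by
  ext w
  constructor
  · rintro ⟨l, D, h1, h2, -, h4, -⟩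
    obtain ⟨-, h⟩ := cm_sound h1 h2 h4
    obtain ⟨n, m, h5, h6⟩ := h rfl
    refine ⟨n, m, ?_, h5⟩
    simp only [init] at h6
    exact le_trans (Nat.le_add_left _ _) h6
  · rintro ⟨n, m, hnm, rfl⟩
    obtain ⟨q', hb⟩ := run_b m false n
    have ha := run_a n (List.replicate m true) 0
    rw [Nat.zero_add] at ha
    refine ⟨_, _, ha.append hb, rfl, Set.mem_univ _, ?_, ?_⟩
    · funext i
      simp only [Pi.zero_apply]
      omega
    · exact (reversals_run n m).trans hc

/-- **For every `c ≥ 1`, `𝓛_{Rc}(QR-DPBLIND)` is a proper subclass of `𝓛_{Rc}(QR-DCOUNTER)`** (over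
the alphabet with two letters). More precisely the language `a^n b^m`, `m ≥ n`, is `L_{Rc}(M)` for a
deterministic machine `M` with one counter all of whose moves read a letter, and for no
deterministic quasi-realtime partially blind machine. -/
theorem result (c : ℕ) (hc : 1 ≤ c) :
    QRDPBlind Bool c ⊂ QRDCounter Bool c ∧
    ∃ M : Machine Bool, M.k = 1 ∧ Deterministic M ∧ QuasiRealtime M ∧ Realtime M ∧
      LR c M = {w | ∃ n m : ℕ, n ≤ m ∧ w = List.replicate n false ++ List.replicate m true} ∧
      LR c M ∉ QRDPBlind Bool c := by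
  have key : LR c cm ∉ QRDPBlind Bool c := by
    rintro ⟨M, hd, hq, hb, h⟩
    exact not_blind c M hd hq hb (h.symm.trans (cm_lang c hc))
  refine ⟨⟨?_, fun h => key (h ⟨cm, cm_det, cm_qr, rfl⟩)⟩, cm, rfl, cm_det, cm_qr, cm_realtime,
    cm_lang c hc, key⟩
  rintro L ⟨M, hd, hq, -, h⟩
  exact ⟨M, hd, hq, h⟩

end Pool.Agent.Results.MP_24384b_lc.BlindStrictlyWeaker
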